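import Pool.Agent.Lib.MP_3240be_co.H51.Defs

/-!
# MP_3240be_co, item (1), Case IIa: the rook graph is Ramsey for a broom-like tree (row R2A)
-/

set_option autoImplicit false

namespace MP3240T

namespace H67A

open Finset

/-- Neighbours of `x` in `S`. -/
noncomputable def nS {V : Type} (G : SimpleGraph V) (S : Finset V) (x : V) : Finset V := by
  classical exact S.filter (fun y => G.Adj x y)

theorem mem_nS {V : Type} {G : SimpleGraph V} {S : Finset V} {x y : V} :
    y ∈ nS G S x ↔ y ∈ S ∧ G.Adj x y := by
  classical
  simp [nS]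

/-- Degree sum of `G[S]`. -/
noncomputable def eS {V : Type} (G : SimpleGraph V) (S : Finset V) : ℕ :=
  ∑ x ∈ S, (nS G S x).card

theorem eS_erase {V : Type} [DecidableEq V] (G : SimpleGraph V) (S : Finset V) (x : V)
    (hx : x ∈ S) : eS G S = eS G (S.erase x) + 2 * (nS G S x).card := by
  classical
  have h1 : ∀ y ∈ S.erase x, (nS G S y).card
      = (nS G (S.erase x) y).card + (if G.Adj x y then 1 else 0) := by
    intro y hy
    have hyx : y ≠ x := (mem_erase.1 hy).1
    by_cases hxy : G.Adj x y
    · have : nS G S y = insert x (nS G (S.erase x) y) := by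
        ext z
        simp only [mem_nS, mem_insert, mem_erase]
        constructor
        · rintro ⟨h1, h2⟩
          by_cases hz : z = x
          · exact Or.inl hz
          · exact Or.inr ⟨⟨hz, h1⟩, h2⟩
        · rintro (rfl | ⟨⟨h0, h1⟩, h2⟩)
          · exact ⟨hx, hxy.symm⟩
          · exact ⟨h1, h2⟩
      rw [this, card_insert_of_notMem (by simp [mem_nS])]
      simp [hxy]
    · have : nS G S y = nS G (S.erase x) y := by
        ext z
        simp only [mem_nS, mem_erase]
        constructor
        · rintro ⟨h1, h2⟩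
          refine ⟨⟨?_, h1⟩, h2⟩
          rintro rfl
          exact hxy h2.symm
        · rintro ⟨⟨h0, h1⟩, h2⟩
          exact ⟨h1, h2⟩
      rw [this]
      simp [hxy]
  have h2 : (nS G S x).card = ∑ y ∈ S.erase x, (if G.Adj x y then 1 else 0) := by
    rw [← card_filter]
    congr 1
    ext z
    simp only [mem_nS, mem_filter, mem_erase]
    constructor
    · rintro ⟨h1, h2⟩
      exact ⟨⟨h2.ne', h1⟩, h2⟩
    · rintro ⟨⟨h0, h1⟩, h2⟩
      exact ⟨h1, h2⟩
  unfold eS
  rw [← add_sum_erase S _ hx, sum_congr rfl h1, sum_add_distrib, ← h2]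
  ring

/-- A non-empty subgraph of large minimum degree with a vertex of large degree. -/
theorem exists_dense {V : Type} (G : SimpleGraph V) (m : ℕ) (hm : 1 ≤ m) :
    ∀ (k : ℕ) (S : Finset V), S.card = k → S.Nonempty → m * S.card ≤ eS G S →
      ∃ S' : Finset V, (∀ x ∈ S', m + 1 ≤ 2 * (nS G S' x).card) ∧
        ∃ x ∈ S', m ≤ (nS G S' x).card := by
  classical
  intro k
  induction k with
  | zero =>
    intro S hS hne
    exact absurd (card_eq_zero.1 hS) hne.ne_empty
  | succ k ih =>
    intro S hS hne hsum
    by_cases hall : ∀ x ∈ S, m + 1 ≤ 2 * (nS G S x).card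
    · refine ⟨S, hall, ?_⟩
      by_contra hno
      push Not at hno
      have : eS G S < ∑ _x ∈ S, m := sum_lt_sum_of_nonempty hne (fun x hx => hno x hx)
      rw [sum_const, smul_eq_mul, mul_comm] at this
      omega
    · push Not at hall
      obtain ⟨x, hx, hlt⟩ := hall
      have h1 := eS_erase G S x hx
      have h2 : (S.erase x).card = k := by rw [card_erase_of_mem hx, hS]; rfl
      rcases Nat.eq_zero_or_pos k with hk | hk
      · subst hk
        have h3 : S.erase x = ∅ := card_eq_zero.1 h2
        have h4 : eS G (S.erase x) = 0 := by rw [h3]; rfl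
        have h5 : nS G S x = ∅ := by
          ext z
          simp only [mem_nS, notMem_empty, iff_false, not_and]
          intro hz hxz
          have : z ∈ S.erase x := mem_erase.2 ⟨hxz.ne', hz⟩
          rw [h3] at this
          exact absurd this (notMem_empty z)
        rw [h4, h5] at h1
        rw [h1, hS] at hsum
        simp at hsum
        omega
      · refine ih (S.erase x) h2 (card_pos.1 (by omega)) ?_
        rw [h2]
        rw [hS] at hsum
        have : m * (k + 1) = m * k + m := by ring
        omega

theorem inj_of_card {V : Type} (N : Finset V) (d : ℕ) (h : d ≤ N.card) :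
    ∃ g : Fin d → V, Function.Injective g ∧ ∀ l, g l ∈ N := by
  have : Fintype.card (Fin d) ≤ Fintype.card {x // x ∈ N} := by simpa using h
  obtain ⟨e⟩ := Function.Embedding.nonempty_of_card_le this
  refine ⟨fun l => (e l).1, ?_, fun l => (e l).2⟩
  intro l l' hl
  exact e.injective (Subtype.ext hl)

/-- Disjoint sets of `d j` elements in `N j \ Z`, chosen greedily. -/
theorem gd {ι V : Type} [DecidableEq ι] [DecidableEq V] (v0 : V) (J : Finset ι) (d : ι → ℕ)
    (N : ι → Finset V) (Z : Finset V) (h : ∀ j ∈ J, ∑ j' ∈ J, d j' ≤ (N j \ Z).card) :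
    ∃ L : (j : ι) → Fin (d j) → V, (∀ j ∈ J, Function.Injective (L j)) ∧
      (∀ j ∈ J, ∀ l, L j l ∈ N j \ Z) ∧
      ∀ j ∈ J, ∀ j' ∈ J, j ≠ j' → ∀ l l', L j l ≠ L j' l' := by
  induction J using Finset.induction_on with
  | empty => exact ⟨fun _ _ => v0, by simp, by simp, by simp⟩
  | insert j0 J hj0 ih =>
    rw [sum_insert hj0] at h
    obtain ⟨L, hL1, hL2, hL3⟩ := ih (fun j hj => by
      have := h j (mem_insert_of_mem hj)
      omega)
    let U : Finset V := J.biUnion (fun j => univ.image (L j))
    have hU : U.card ≤ ∑ j ∈ J, d j := by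
      refine card_biUnion_le.trans (sum_le_sum fun j _ => ?_)
      refine card_image_le.trans ?_
      simp
    have h0 := h j0 (mem_insert_self _ _)
    have h1 : d j0 ≤ ((N j0 \ Z) \ U).card := by
      have := le_card_sdiff U (N j0 \ Z)
      omega
    obtain ⟨g, hg1, hg2⟩ := inj_of_card _ _ h1
    have hne : ∀ j ∈ J, j ≠ j0 := fun j hj e => hj0 (e ▸ hj)
    have hgU : ∀ j ∈ J, ∀ l l', g l ≠ L j l' := by
      intro j hj l l' e
      have := (mem_sdiff.1 (hg2 l)).2
      apply this
      rw [e]
      exact mem_biUnion.2 ⟨j, hj, mem_image_of_mem _ (mem_univ _)⟩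
    refine ⟨Function.update L j0 g, ?_, ?_, ?_⟩
    · intro j hj
      rcases mem_insert.1 hj with rfl | hj'
      · simpa using hg1
      · rw [Function.update_of_ne (hne j hj')]
        exact hL1 j hj'
    · intro j hj l
      rcases mem_insert.1 hj with rfl | hj'
      · have := (mem_sdiff.1 (hg2 (by simpa using l))).1
        simpa using (mem_sdiff.1 (hg2 l)).1
      · have e := congrFun (Function.update_of_ne (hne j hj') g L) l
        rw [e]
        exact hL2 j hj' l
    · intro j hj j' hj' hjj l l'
      rcases mem_insert.1 hj with rfl | hj1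
      · rcases mem_insert.1 hj' with rfl | hj2
        · exact absurd rfl hjj
        · have e := congrFun (Function.update_of_ne (hne j' hj2) g L) l'
          have e' := congrFun (Function.update_self j g L) l
          rw [e, e']
          exact hgU j' hj2 _ _
      · rcases mem_insert.1 hj' with rfl | hj2
        · have e := congrFun (Function.update_of_ne (hne j hj1) g L) l
          have e' := congrFun (Function.update_self j' g L) l'
          rw [e, e']
          exact (hgU j hj1 _ _).symm
        · have e := congrFun (Function.update_of_ne (hne j hj1) g L) l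
          have e' := congrFun (Function.update_of_ne (hne j' hj2) g L) l'
          rw [e, e']
          exact hL3 j hj1 j' hj2 hjj _ _

/-- Degrees in the rook graph. -/
theorem rook_deg (n : ℕ) (x : Fin n × Fin n) : 2 * (n - 1) ≤ (nS (rook n) univ x).card := by
  classical
  obtain ⟨i, j⟩ := x
  have h1 : ((univ.erase j).image (fun j' => (i, j')) ∪ (univ.erase i).image (fun i' => (i', j)))
      ⊆ nS (rook n) univ (i, j) := by
    intro y hy
    rw [mem_nS]
    refine ⟨mem_univ _, ?_⟩
    simp only [mem_union, mem_image, mem_erase, mem_univ, and_true] at hy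
    simp only [rook, SimpleGraph.fromRel_adj, ne_eq]
    rcases hy with ⟨j', hj', rfl⟩ | ⟨i', hi', rfl⟩
    · simp [Ne.symm hj']
    · simp [Ne.symm hi']
  have h2 : Disjoint ((univ.erase j).image (fun j' => (i, j')))
      ((univ.erase i).image (fun i' => (i', j))) := by
    rw [disjoint_left]
    intro y hy hy'
    simp only [mem_image, mem_erase, mem_univ, and_true] at hy hy'
    obtain ⟨j', hj', rfl⟩ := hy
    obtain ⟨i', hi', e⟩ := hy'
    simp only [Prod.mk.injEq] at e
    exact hi' e.1
  have h3 := card_le_card h1
  rw [card_union_of_disjoint h2, card_image_of_injective, card_image_of_injective,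
    card_erase_of_mem (mem_univ _), card_erase_of_mem (mem_univ _)] at h3
  · simp only [card_univ, Fintype.card_fin] at h3
    omega
  · intro a b e
    simpa using e
  · intro a b e
    simpa using e

/-- One colour class is dense. -/
theorem exists_colour (n : ℕ) (c : Fin n × Fin n → Fin n × Fin n → Bool)
    (hc : ∀ x y, c x y = c y x) :
    ∃ b, (n - 1) * (univ : Finset (Fin n × Fin n)).card ≤ eS (cls (rook n) c b) univ := by
  classical
  have h1 : ∀ x, 2 * (n - 1) ≤ (nS (cls (rook n) c true) univ x).card
      + (nS (cls (rook n) c false) univ x).card := by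
    intro x
    refine (rook_deg n x).trans ?_
    have : nS (rook n) univ x ⊆ nS (cls (rook n) c true) univ x ∪
        nS (cls (rook n) c false) univ x := by
      intro y hy
      rw [mem_nS] at hy
      rw [mem_union, mem_nS, mem_nS]
      cases hb : c x y with
      | true => exact Or.inl ⟨mem_univ _, hy.2, hb, (hc y x).trans hb⟩
      | false => exact Or.inr ⟨mem_univ _, hy.2, hb, (hc y x).trans hb⟩
    exact (card_le_card this).trans (card_union_le _ _)
  have h2 : ∑ _x : Fin n × Fin n, 2 * (n - 1) ≤ eS (cls (rook n) c true) univ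
      + eS (cls (rook n) c false) univ := by
    unfold eS
    rw [← sum_add_distrib]
    exact sum_le_sum (fun x _ => h1 x)
  rw [sum_const, smul_eq_mul] at h2
  by_contra hno
  push Not at hno
  have ht := hno true
  have hf := hno false
  have : (univ : Finset (Fin n × Fin n)).card * (2 * (n - 1)) =
      (n - 1) * (univ : Finset (Fin n × Fin n)).card
      + (n - 1) * (univ : Finset (Fin n × Fin n)).card := by ring
  omega

/-- The greedy embedding of `T2 c`, `x0` is the image of the vertex `al i0` of large degree. -/
theorem emb_T2 {V : Type} (G : SimpleGraph V) (S : Finset V) (a : ℕ) (c : Fin a → ℕ) (n : ℕ)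
    (i0 : Fin a) (hn : n = 1 + a + ∑ j, c j) (hi0 : n + 1 ≤ 2 * c i0)
    (hS : ∀ x ∈ S, n ≤ 2 * (nS G S x).card) (x0 : V) (_ : x0 ∈ S)
    (hx0d : n - 1 ≤ (nS G S x0).card) : Emb (T2 c) G := by
  classical
  have hsum : ∑ j, c j = c i0 + ∑ j ∈ univ.erase i0, c j :=
    (add_sum_erase univ c (mem_univ i0)).symm
  have ha : 1 ≤ a := by
    have := i0.2
    omega
  -- the centre
  have hu : (nS G S x0).Nonempty := card_pos.1 (by omega)
  obtain ⟨u, hu⟩ := hu
  rw [mem_nS] at hu
  obtain ⟨huS, hxu⟩ := hu
  -- the children
  have h1 : a ≤ ((nS G S u).erase x0).card := by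
    have h2 := hS u huS
    have h3 := pred_card_le_card_erase (s := nS G S u) (a := x0)
    omega
  obtain ⟨g, hg1, hg2⟩ := inj_of_card _ _ h1
  have hgx : ∀ j, g j ≠ x0 := fun j => (mem_erase.1 (hg2 j)).1
  have hgS : ∀ j, g j ∈ S := fun j => (mem_nS.1 (mem_erase.1 (hg2 j)).2).1
  have hgu : ∀ j, G.Adj u (g j) := fun j => (mem_nS.1 (mem_erase.1 (hg2 j)).2).2
  -- the leaves of the children other than `i0`
  let Z : Finset V := insert u (insert x0 (univ.image g))
  have hZ : ∀ j, ∑ j' ∈ univ.erase i0, c j' ≤ ((nS G S (g j)) \ Z).card := by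
    intro j
    have h2 := hS (g j) (hgS j)
    have h3 : (nS G S (g j)) \ (Z.erase (g j)) ⊆ (nS G S (g j)) \ Z := by
      intro y hy
      rw [mem_sdiff] at hy ⊢
      refine ⟨hy.1, fun hyZ => hy.2 (mem_erase.2 ⟨?_, hyZ⟩)⟩
      exact (mem_nS.1 hy.1).2.ne'
    have h4 : (Z.erase (g j)).card ≤ a + 1 := by
      have h5 : g j ∈ Z := by simp [Z]
      rw [card_erase_of_mem h5]
      have h6 : Z.card ≤ (univ.image g).card + 1 + 1 :=
        (card_insert_le _ _).trans (Nat.add_le_add_right (card_insert_le _ _) 1)
      have h7 : (univ.image g).card ≤ a := card_image_le.trans (by simp)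
      omega
    have h5 := card_le_card h3
    have h6 := le_card_sdiff (Z.erase (g j)) (nS G S (g j))
    omega
  obtain ⟨L, hL1, hL2, hL3⟩ := gd x0 (univ.erase i0) c (fun j => nS G S (g j)) Z
    (fun j _ => hZ j)
  -- the leaves of `i0`
  let U : Finset V := insert u ((univ.erase i0).image g ∪
    (univ.erase i0).biUnion (fun j => univ.image (L j)))
  have hU : c i0 ≤ ((nS G S x0) \ U).card := by
    have h2 := le_card_sdiff U (nS G S x0)
    have h3 : U.card ≤ (a - 1) + (∑ j ∈ univ.erase i0, c j) + 1 := by
      refine (card_insert_le _ _).trans (Nat.add_le_add_right ?_ 1)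
      refine (card_union_le _ _).trans (Nat.add_le_add ?_ ?_)
      · refine card_image_le.trans ?_
        rw [card_erase_of_mem (mem_univ _)]
        simp
      · refine card_biUnion_le.trans (sum_le_sum fun j _ => ?_)
        exact card_image_le.trans (by simp)
    omega
  obtain ⟨M, hM1, hM2⟩ := inj_of_card _ _ hU
  -- facts
  have hLx : ∀ j, j ≠ i0 → ∀ l, G.Adj (g j) (L j l) ∧ L j l ≠ u ∧ L j l ≠ x0 ∧
      ∀ j', L j l ≠ g j' := by
    intro j hj l
    have h2 := hL2 j (mem_erase.2 ⟨hj, mem_univ _⟩) l
    rw [mem_sdiff, mem_nS] at h2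
    refine ⟨h2.1.2, ?_, ?_, ?_⟩
    · intro e
      exact h2.2 (by simp [Z, e])
    · intro e
      exact h2.2 (by simp [Z, e])
    · intro j' e
      exact h2.2 (by simp [Z, e])
  have hMx : ∀ l, G.Adj x0 (M l) ∧ M l ≠ u ∧ (∀ j', j' ≠ i0 → M l ≠ g j') ∧
      ∀ j', j' ≠ i0 → ∀ l', M l ≠ L j' l' := by
    intro l
    have h2 := hM2 l
    rw [mem_sdiff, mem_nS] at h2
    refine ⟨h2.1.2, ?_, ?_, ?_⟩
    · intro e
      exact h2.2 (by simp [U, e])
    · intro j' hj' e
      apply h2.2
      rw [e]
      exact mem_insert_of_mem (mem_union_left _ (mem_image_of_mem _ (mem_erase.2 ⟨hj', mem_univ _⟩)))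
    · intro j' hj' l' e
      apply h2.2
      rw [e]
      exact mem_insert_of_mem (mem_union_right _ (mem_biUnion.2 ⟨j', mem_erase.2 ⟨hj', mem_univ _⟩,
        mem_image_of_mem _ (mem_univ _)⟩))
  -- all leaves and all children
  obtain ⟨L', hL'⟩ : ∃ L' : (j : Fin a) → Fin (c j) → V, L' = Function.update L i0 M := ⟨_, rfl⟩
  obtain ⟨g', hg'⟩ : ∃ g' : Fin a → V, g' = Function.update g i0 x0 := ⟨_, rfl⟩
  have hL'0 : ∀ l, L' i0 l = M l := by
    intro l
    rw [hL']
    exact congrFun (Function.update_self i0 M L) l
  have hL'1 : ∀ j, j ≠ i0 → ∀ l, L' j l = L j l := by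
    intro j hj l
    rw [hL']
    exact congrFun (Function.update_of_ne hj M L) l
  have hg'0 : g' i0 = x0 := by rw [hg']; simp
  have hg'1 : ∀ j, j ≠ i0 → g' j = g j := by
    intro j hj
    rw [hg', Function.update_of_ne hj]
  have k1 : ∀ j, G.Adj u (g' j) := by
    intro j
    by_cases hj : j = i0
    · rw [hj, hg'0]
      exact hxu.symm
    · rw [hg'1 j hj]
      exact hgu j
  have k2 : ∀ j l, G.Adj (g' j) (L' j l) := by
    intro j l
    by_cases hj : j = i0
    · subst hj
      rw [hg'0, hL'0]
      exact (hMx l).1
    · rw [hg'1 j hj, hL'1 j hj]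
      exact (hLx j hj l).1
  have k3 : ∀ j l, L' j l ≠ u := by
    intro j l
    by_cases hj : j = i0
    · subst hj
      rw [hL'0]
      exact (hMx l).2.1
    · rw [hL'1 j hj]
      exact (hLx j hj l).2.1
  have k4 : ∀ j l j', L' j l ≠ g' j' := by
    intro j l j'
    by_cases hj : j = i0
    · subst hj
      rw [hL'0]
      by_cases hj' : j' = j
      · rw [hj', hg'0]
        exact (hMx l).1.ne'
      · rw [hg'1 j' hj']
        exact (hMx l).2.2.1 j' hj'
    · rw [hL'1 j hj]
      by_cases hj' : j' = i0
      · rw [hj', hg'0]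
        exact (hLx j hj l).2.2.1
      · rw [hg'1 j' hj']
        exact (hLx j hj l).2.2.2 j'
  have k5 : ∀ j j', g' j = g' j' → j = j' := by
    intro j j' e
    by_cases hj : j = i0
    · by_cases hj' : j' = i0
      · rw [hj, hj']
      · rw [hj, hg'0, hg'1 j' hj'] at e
        exact absurd e.symm (hgx j')
    · by_cases hj' : j' = i0
      · rw [hj', hg'0, hg'1 j hj] at e
        exact absurd e (hgx j)
      · rw [hg'1 j hj, hg'1 j' hj'] at e
        exact hg1 e
  have k6 : ∀ j l l', L' j l = L' j l' → l = l' := by
    intro j l l' e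
    by_cases hj : j = i0
    · subst hj
      rw [hL'0, hL'0] at e
      exact hM1 e
    · rw [hL'1 j hj, hL'1 j hj] at e
      exact hL1 j (mem_erase.2 ⟨hj, mem_univ _⟩) e
  have k7 : ∀ j j' l l', L' j l = L' j' l' → j = j' := by
    intro j j' l l' e
    by_contra hjj
    by_cases hj : j = i0
    · have hj' : j' ≠ i0 := fun h => hjj (hj.trans h.symm)
      subst hj
      rw [hL'0, hL'1 j' hj'] at e
      exact (hMx l).2.2.2 j' hj' l' e
    · by_cases hj' : j' = i0
      · subst hj'
        rw [hL'0, hL'1 j hj] at e
        exact (hMx l').2.2.2 j hj l e.symm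
      · rw [hL'1 j hj, hL'1 j' hj'] at e
        exact hL3 j (mem_erase.2 ⟨hj, mem_univ _⟩) j' (mem_erase.2 ⟨hj', mem_univ _⟩) hjj l l' e
  refine ⟨fun v => match v with
    | .ctr => u
    | .al j => g' j
    | .lf j l => L' j l, ?_, ?_⟩
  · intro v w e
    cases v with
    | ctr =>
      cases w with
      | ctr => rfl
      | al j => exact absurd e (k1 j).ne
      | lf j l => exact absurd e.symm (k3 j l)
    | al i =>
      cases w with
      | ctr => exact absurd e.symm (k1 i).ne
      | al j => exact congrArg D2.al (k5 i j e)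
      | lf j l => exact absurd e.symm (k4 j l i)
    | lf i l =>
      cases w with
      | ctr => exact absurd e (k3 i l)
      | al j => exact absurd e (k4 i l j)
      | lf j l' =>
        have h2 : i = j := k7 i j l l' e
        subst h2
        rw [k6 i l l' e]
  · intro v w hvw
    simp only [T2, SimpleGraph.fromRel_adj] at hvw
    obtain ⟨-, hvw | hvw⟩ := hvw
    · cases v with
      | ctr =>
        cases w with
        | ctr => exact absurd hvw id
        | al j => exact k1 j
        | lf j l => exact absurd hvw id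
      | al i =>
        cases w with
        | ctr => exact absurd hvw id
        | al j => exact absurd hvw id
        | lf j l =>
          have h2 : i = j := hvw
          subst h2
          exact k2 i l
      | lf i l =>
        cases w with
        | ctr => exact absurd hvw id
        | al j => exact absurd hvw id
        | lf j l => exact absurd hvw id
    · cases w with
      | ctr =>
        cases v with
        | ctr => exact absurd hvw id
        | al j => exact (k1 j).symm
        | lf j l => exact absurd hvw id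
      | al i =>
        cases v with
        | ctr => exact absurd hvw id
        | al j => exact absurd hvw id
        | lf j l =>
          have h2 : i = j := hvw
          subst h2
          exact (k2 i l).symm
      | lf i l =>
        cases v with
        | ctr => exact absurd hvw id
        | al j => exact absurd hvw id
        | lf j l => exact absurd hvw id

end H67A

open H67A Finset in
/-- **Row R2A.** -/
theorem r2a_proof : R2AStatement := by
  classical
  intro a c n i0 hn hi0 col hcol
  obtain ⟨b, hb⟩ := exists_colour n col hcol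
  have ha : 1 ≤ a := by
    have := i0.2
    omega
  have hn2 : 2 ≤ n := by omega
  have hne : (univ : Finset (Fin n × Fin n)).Nonempty :=
    ⟨(⟨0, by omega⟩, ⟨0, by omega⟩), mem_univ _⟩
  obtain ⟨S, hS, x0, hx0, hx0d⟩ := exists_dense (cls (rook n) col b) (n - 1) (by omega) _ univ rfl
    hne hb
  refine ⟨b, emb_T2 _ S a c n i0 hn hi0 (fun x hx => ?_) x0 hx0 hx0d⟩
  have := hS x hx
  omega

end MP3240T
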