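import Pool.Agent.Lib.MP_3240be_co.H51.Defs

/-!
# MP_3240be_co, item (1), Case IIb: the `T'`-free colouring of `FB` (row N2B)

Rows of the copies of `K_n × K_(k+1)` are red, columns and hub edges are blue.
-/

set_option autoImplicit false

namespace MP3240T

namespace H67

open Finset

/-- The colouring: red (`true`) exactly on pairs of lows in the same row. -/
def colB {h n k : ℕ} : (Fin h ⊕ (ℕ × Fin (k + 1) × Fin n)) → (Fin h ⊕ (ℕ × Fin (k + 1) × Fin n)) →
    Bool
  | .inr (m, r, _), .inr (m', r', _) => decide (m = m' ∧ r = r')
  | _, _ => false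

theorem colB_symm {h n k : ℕ} (x y : Fin h ⊕ (ℕ × Fin (k + 1) × Fin n)) :
    colB x y = colB y x := by
  rcases x with x | ⟨m, r, s⟩ <;> rcases y with y | ⟨m', r', s'⟩ <;> simp only [colB]
  congr 1
  simp only [eq_comm]

theorem red_iff {h n k : ℕ} {x y : Fin h ⊕ (ℕ × Fin (k + 1) × Fin n)}
    (H : (cls (FB h n k) colB true).Adj x y) :
    ∃ m r s s', x = .inr (m, r, s) ∧ y = .inr (m, r, s') := by
  obtain ⟨-, hc, -⟩ := H
  rcases x with x | ⟨m, r, s⟩ <;> rcases y with y | ⟨m', r', s'⟩ <;> simp [colB] at hc
  obtain ⟨rfl, rfl⟩ := hc
  exact ⟨m, r, s, s', rfl, rfl⟩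

theorem hub_hub {h n k : ℕ} {i j : Fin h}
    (H : (cls (FB h n k) colB false).Adj (.inl i) (.inl j)) : False := by
  obtain ⟨hF, -, -⟩ := H
  simp [FB, SimpleGraph.fromRel_adj] at hF

/-- A blue edge between two lows is a column edge. -/
theorem low_low {h n k : ℕ} {m m' : ℕ} {r r' : Fin (k + 1)} {s s' : Fin n}
    (H : (cls (FB h n k) colB false).Adj (.inr (m, r, s)) (.inr (m', r', s'))) :
    m' = m ∧ s' = s ∧ r' ≠ r := by
  obtain ⟨hF, hc, -⟩ := H
  simp only [FB, SimpleGraph.fromRel_adj, ne_eq] at hF
  simp only [colB, decide_eq_false_iff_not, not_and] at hc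
  obtain ⟨-, hF | hF⟩ := hF
  · obtain ⟨rfl, hF⟩ := hF
    rcases hF with hF | hF
    · exact absurd hF (hc rfl)
    · exact ⟨rfl, hF.symm, fun e => hc rfl e.symm⟩
  · obtain ⟨rfl, hF⟩ := hF
    rcases hF with hF | hF
    · exact absurd hF.symm (hc rfl)
    · exact ⟨rfl, hF, fun e => hc rfl e.symm⟩

theorem T2_ctr_al {a : ℕ} (c : Fin a → ℕ) (i : Fin a) : (T2 c).Adj .ctr (.al i) := by
  simp [T2, SimpleGraph.fromRel_adj]

theorem T2_al_lf {a : ℕ} (c : Fin a → ℕ) (i : Fin a) (l : Fin (c i)) :
    (T2 c).Adj (.al i) (.lf i l) := by
  simp [T2, SimpleGraph.fromRel_adj]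

/-- An injection into `D2 c` from a type with `1 + a + ∑ c` elements. -/
def toD2 {a : ℕ} (c : Fin a → ℕ) : Option (Fin a ⊕ (Σ i, Fin (c i))) → D2 c
  | none => .ctr
  | some (.inl i) => .al i
  | some (.inr ⟨i, l⟩) => .lf i l

theorem toD2_inj {a : ℕ} (c : Fin a → ℕ) : Function.Injective (toD2 c) := by
  rintro (_ | _ | ⟨i, l⟩) (_ | _ | ⟨i', l'⟩) H <;> simp [toD2] at H ⊢
  · exact H
  · obtain ⟨rfl, H⟩ := H
    simpa using H

/-- An embedding of `T2 c` needs `1 + a + ∑ c` vertices. -/
theorem card_le_of_inj {a : ℕ} (c : Fin a → ℕ) {n : ℕ} (g : D2 c → Fin n)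
    (hg : Function.Injective g) : 1 + a + ∑ j, c j ≤ n := by
  have h1 := Fintype.card_le_of_injective _ (hg.comp (toD2_inj c))
  simp only [Fintype.card_option, Fintype.card_sum, Fintype.card_fin, Fintype.card_sigma] at h1
  omega

end H67

open H67 Finset in
/-- **Row N2B.** -/
theorem n2b_proof : N2BStatement := by
  classical
  intro h c n k hh hn hk hsum hA
  obtain ⟨b, f, hinj, hadj⟩ := hA colB colB_symm
  cases b with
  | true =>
    -- red: all vertices in one row
    obtain ⟨m, r, s0, s1, hctr, -⟩ := red_iff (hadj _ _ (T2_ctr_al c 0))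
    have hal : ∀ i, ∃ s, f (.al i) = .inr (m, r, s) := by
      intro i
      obtain ⟨m', r', s, s', e1, e2⟩ := red_iff (hadj _ _ (T2_ctr_al c i))
      rw [hctr] at e1
      simp only [Sum.inr.injEq, Prod.mk.injEq] at e1
      obtain ⟨rfl, rfl, -⟩ := e1
      exact ⟨s', e2⟩
    have hall : ∀ v, ∃ s, f v = .inr (m, r, s) := by
      intro v
      cases v with
      | ctr => exact ⟨s0, hctr⟩
      | al i => exact hal i
      | lf i l =>
        obtain ⟨s, hs⟩ := hal i
        obtain ⟨m', r', t, t', e1, e2⟩ := red_iff (hadj _ _ (T2_al_lf c i l))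
        rw [hs] at e1
        simp only [Sum.inr.injEq, Prod.mk.injEq] at e1
        obtain ⟨rfl, rfl, -⟩ := e1
        exact ⟨t', e2⟩
    choose g hg using hall
    have hgi : Function.Injective g := by
      intro v w e
      apply hinj
      rw [hg, hg, e]
    have := card_le_of_inj c g hgi
    omega
  | false =>
    have hpig : ∀ u : Fin (h + 1) → D2 c, (∀ i, ∃ y, f (u i) = .inl y) → Function.Injective u →
        False := by
      intro u hu hui
      choose y hy using hu
      have : Function.Injective y := by
        intro i j e
        apply hui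
        apply hinj
        rw [hy, hy, e]
      have := Fintype.card_le_of_injective _ this
      simp at this
    rcases hc : f .ctr with y0 | ⟨m0, r0, s0⟩
    · -- the centre is a hub
      have hlow : ∀ i, ∃ m r s, f (.al i) = .inr (m, r, s) := by
        intro i
        rcases ha : f (.al i) with y | ⟨m, r, s⟩
        · have := hadj _ _ (T2_ctr_al c i)
          rw [hc, ha] at this
          exact (hub_hub this).elim
        · exact ⟨m, r, s, rfl⟩
      choose m r s hal using hlow
      -- leaves on lows
      have hk1 : ∀ i, (univ.filter (fun l : Fin (c i) => ¬ ∃ y, f (.lf i l) = .inl y)).card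
          ≤ k := by
        intro i
        have hmap : ∀ l : Fin (c i), (¬ ∃ y, f (.lf i l) = .inl y) → ∃ r', r' ≠ r i ∧
            f (.lf i l) = .inr (m i, r', s i) := by
          intro l hl
          rcases hf : f (.lf i l) with y | ⟨m', r', s'⟩
          · exact absurd ⟨y, hf⟩ hl
          · have := hadj _ _ (T2_al_lf c i l)
            rw [hal, hf] at this
            obtain ⟨rfl, rfl, hr⟩ := low_low this
            exact ⟨r', hr, rfl⟩
        choose! g hg1 hg2 using hmap
        have : (univ.filter (fun l : Fin (c i) => ¬ ∃ y, f (.lf i l) = .inl y)).card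
            ≤ (univ.erase (r i)).card := by
          apply card_le_card_of_injOn g
          · intro l hl
            simp only [coe_filter, mem_univ, true_and, Set.mem_ofPred_eq] at hl
            simp only [coe_erase, coe_univ, Set.mem_sdiff, Set.mem_univ, Set.mem_singleton_iff,
              true_and]
            exact hg1 l hl
          · intro l hl l' hl' e
            simp only [coe_filter, mem_univ, true_and, Set.mem_ofPred_eq] at hl hl'
            have e2 : f (.lf i l) = f (.lf i l') := by rw [hg2 l hl, hg2 l' hl', e]
            have := hinj e2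
            simpa using this
        simpa using this
      have hk2 : ∀ i, c i ≤ k + (univ.filter (fun l : Fin (c i) => ∃ y, f (.lf i l) = .inl y)).card
          := by
        intro i
        have h1 := card_filter_add_card_filter_not (s := (univ : Finset (Fin (c i))))
          (fun l : Fin (c i) => ∃ y, f (.lf i l) = .inl y)
        have h2 := hk1 i
        simp only [card_univ, Fintype.card_fin] at h1
        omega
      have hk3 : ∑ i, (univ.filter (fun l : Fin (c i) => ∃ y, f (.lf i l) = .inl y)).card ≤ h := by
        rw [← card_sigma]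
        have hex : ∀ x : (Σ i, Fin (c i)), (∃ y, f (.lf x.1 x.2) = .inl y) → ∃ y : Fin h,
            f (.lf x.1 x.2) = .inl y := fun x hx => hx
        by_cases hh0 : Nonempty (Fin h)
        · have hex' : ∀ x : (Σ i, Fin (c i)), ∃ y : Fin h, (∃ y, f (.lf x.1 x.2) = .inl y) →
              f (.lf x.1 x.2) = .inl y := by
            intro x
            by_cases hx : ∃ y, f (.lf x.1 x.2) = .inl y
            · obtain ⟨y, hy⟩ := hx
              exact ⟨y, fun _ => hy⟩
            · exact ⟨hh0.some, fun h => absurd h hx⟩
          choose g hg using hex'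
          calc _ ≤ (univ : Finset (Fin h)).card := by
                apply card_le_card_of_injOn g
                · intro x _
                  simp
                · intro x hx x' hx' e
                  simp only [coe_sigma, coe_univ, coe_filter, mem_univ, true_and,
                    Set.mem_sigma_iff, Set.mem_univ, Set.mem_ofPred_eq] at hx hx'
                  have e2 : f (.lf x.1 x.2) = f (.lf x'.1 x'.2) := by
                    rw [hg x hx, hg x' hx', e]
                  have := hinj e2
                  simp only [D2.lf.injEq] at this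
                  exact Sigma.ext this.1 this.2
            _ = h := by simp
        · exact absurd ⟨(⟨0, by omega⟩ : Fin h)⟩ hh0
      have hk4 : ∑ i, c i ≤ ∑ i : Fin (h + 1), (k + (univ.filter
          (fun l : Fin (c i) => ∃ y, f (.lf i l) = .inl y)).card) :=
        sum_le_sum (fun i _ => hk2 i)
      rw [sum_add_distrib] at hk4
      simp only [sum_const, card_univ, Fintype.card_fin, smul_eq_mul] at hk4
      omega
    · -- the centre is low
      have hi : ∀ i, ∃ v : D2 c, (v = .al i ∨ ∃ l, v = .lf i l) ∧ ∃ y, f v = .inl y := by
        intro i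
        rcases ha : f (.al i) with y | ⟨m, r, s⟩
        · exact ⟨.al i, Or.inl rfl, y, ha⟩
        · by_contra hno
          push Not at hno
          have h0 := hadj _ _ (T2_ctr_al c i)
          rw [hc, ha] at h0
          obtain ⟨rfl, rfl, hr⟩ := low_low h0
          have hmap : ∀ l : Fin (c i), ∃ r', r' ≠ r ∧ r' ≠ r0 ∧
              f (.lf i l) = .inr (m, r', s) := by
            intro l
            rcases hf : f (.lf i l) with y | ⟨m', r', s'⟩
            · exact absurd hf (hno _ (Or.inr ⟨l, rfl⟩) y)
            · have := hadj _ _ (T2_al_lf c i l)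
              rw [ha, hf] at this
              obtain ⟨rfl, rfl, hr'⟩ := low_low this
              refine ⟨r', hr', ?_, rfl⟩
              rintro rfl
              have := hinj (hf.trans hc.symm)
              simp at this
          choose g hg1 hg2 hg3 using hmap
          have hcard : (univ : Finset (Fin (c i))).card ≤ ((univ.erase r).erase r0).card := by
            apply card_le_card_of_injOn g
            · intro l _
              simp only [coe_erase, coe_univ, Set.mem_sdiff, Set.mem_univ, Set.mem_singleton_iff,
                true_and]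
              exact ⟨hg1 l, hg2 l⟩
            · intro l _ l' _ e
              have e2 : f (.lf i l) = f (.lf i l') := by rw [hg3 l, hg3 l', e]
              have := hinj e2
              simpa using this
          rw [card_erase_of_mem (by simp [Ne.symm hr]), card_erase_of_mem (by simp)] at hcard
          simp only [card_univ, Fintype.card_fin] at hcard
          have hki := hk i
          have hk1 : 1 ≤ k := by
            by_contra hk0
            have hk0' : k = 0 := by omega
            subst hk0'
            exact hr (Fin.ext (by have h1 := r.2; have h2 := r0.2; omega))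
          omega
      choose u hu1 hu2 using hi
      refine hpig u hu2 ?_
      intro i j e
      rcases hu1 i with h1 | ⟨l, h1⟩ <;> rcases hu1 j with h2 | ⟨l', h2⟩ <;> rw [h1, h2] at e
      · simpa using e
      · simp at e
      · simp at e
      · simp only [D2.lf.injEq] at e
        exact e.1

end MP3240T
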